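import Pool.Agent.helper8.T7.SpecSM

set_option autoImplicit false

namespace Pool.Agent.T7

open Finset NumberField Pool.Agent.helper3.FT Pool.Agent.helper47.RA Pool.Agent.T5 Pool.Agent.T6 Pool.Agent.T6L
open Pool.Agent.helper26.T5 (nn LEMB LPR LAW LP LPA HLN HPR HSQ HID HCL HGA)

theorem SML_D {N Y X P : ℝ} {t : Tpl} {p : ℕ} {D : ℤ} (hP : 1 ≤ P) (h : SB N Y X P t p D) :
    N / P ^ 2 / 8 < -(D : ℝ) ∧ -(D : ℝ) ≤ N / P ^ 2 := by
  have hP0 : 0 < P := by linarith
  have hp0 : (0 : ℝ) < p := lt_trans hP0 h.p1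
  have hds : (dis t : ℝ) = D * (p : ℝ) ^ 2 := by
    have h1 := h.ds
    have h2 := congrArg (fun a : ℤ => (a : ℝ)) h1
    push_cast at h2
    exact h2
  have h1 := h.d1
  have h2 := h.d2
  rw [hds] at h1 h2
  have hN : 0 < N := by
    by_contra hN
    push Not at hN
    -- `N ≤ 0` would give `N / 2 < - D p ^ 2 ≤ N`
    nlinarith
  have hD0 : 0 < -(D : ℝ) := by
    by_contra hD
    push Not at hD
    have h3 : 0 ≤ (D : ℝ) * (p : ℝ) ^ 2 := mul_nonneg (by linarith) (by positivity)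
    linarith
  have hpp : P ^ 2 ≤ (p : ℝ) ^ 2 := pow_le_pow_left₀ hP0.le h.p1.le 2
  have hpp2 : (p : ℝ) ^ 2 ≤ (2 * P) ^ 2 := pow_le_pow_left₀ hp0.le h.p2 2
  have hP2 : 0 < P ^ 2 := by positivity
  constructor
  · rw [div_div, div_lt_iff₀ (by positivity)]
    have h3 : -(D : ℝ) * (p : ℝ) ^ 2 ≤ -(D : ℝ) * (2 * P) ^ 2 := mul_le_mul_of_nonneg_left hpp2 hD0.le
    nlinarith
  · rw [le_div_iff₀ hP2]
    have h3 : -(D : ℝ) * P ^ 2 ≤ -(D : ℝ) * (p : ℝ) ^ 2 := mul_le_mul_of_nonneg_left hpp hD0.le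
    linarith

theorem SML_mem {M : ℝ} {D : ℤ} (hF : IsFund D) (h1 : M / 2 < -(D : ℝ)) (h2 : -(D : ℝ) ≤ M)
    (h3 : D < 0) : D ∈ DN M := by
  classical
  unfold DN
  rw [mem_filter, mem_Icc]
  refine ⟨⟨?_, by omega⟩, hF, h1⟩
  have h4 : -D ≤ ⌊M⌋ := by
    rw [Int.le_floor]
    push_cast
    exact h2
  omega

theorem SML (hSMU : SMU_stmt) (hSFA : SFA_stmt) : SML_stmt := by
  classical
  intro N Y X P hP hY hN L hL
  obtain ⟨-, -, hF⟩ := hSFA
  have hP0 : 0 < P := by linarith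
  have hP2 : 0 < P ^ 2 := by positivity
  have hbig : 4 * (Y + 1) < N / P ^ 2 / 8 := by
    rw [div_div, lt_div_iff₀ (by positivity)]
    linarith
  -- facts for the elements of `L`
  have hfact : ∀ x ∈ L, IsFund x.1 ∧ N / P ^ 2 / 8 < -(x.1 : ℝ) ∧ -(x.1 : ℝ) ≤ N / P ^ 2 := by
    intro x hx
    obtain ⟨t, p, h1, -⟩ := hL x hx
    exact ⟨h1.fd, SML_D hP h1⟩
  set f : ℤ → ℝ := fun D => (cA D Y : ℝ) with hf
  have hf0 : ∀ D, 0 ≤ f D := fun D => Nat.cast_nonneg _
  -- one field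
  have hone : ∀ D ∈ L.image Prod.fst, ((L.filter fun x => x.1 = D).card : ℝ) ≤ f D := by
    intro D hD
    obtain ⟨x₀, hx₀, hx₀D⟩ := mem_image.1 hD
    obtain ⟨h1, h2, h3⟩ := hfact x₀ hx₀
    rw [hx₀D] at h1 h2 h3
    have hD4 : 4 * Y + 4 < -(D : ℝ) := by linarith
    have hD5 : D < -4 := by
      have h4 : (D : ℝ) < -4 := by linarith
      exact_mod_cast h4
    have hE : Nonempty (Fld D) := hF D h1 (by omega)
    have hcA : cA D Y = (IA hE.some.K Y).ncard := by
      unfold cA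
      rw [dif_pos hE]
    have hQ : hE.some.Q.D = D := hE.some.hD
    have h5 := hSMU hE.some.K hE.some.Q Y (by rw [hQ]; exact hD5) (by rw [hQ]; linarith) hY
      ((L.filter fun x => x.1 = D).image Prod.snd) (by
        intro y hy
        obtain ⟨x, hx, hxy⟩ := mem_image.1 hy
        rw [mem_filter] at hx
        obtain ⟨t, p, h6, h7⟩ := hL x hx.1
        refine ⟨t, p, h6.pr, h6.tt, h6.z1, h6.z2, h6.l1, ?_, h6.rg, ?_⟩
        · rw [hQ, ← hx.2]
          exact h6.ds
        · rw [← h7, hxy])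
    have h6 : ((L.filter fun x => x.1 = D).image Prod.snd).card = (L.filter fun x => x.1 = D).card := by
      refine card_image_of_injOn ?_
      intro x hx y hy hxy
      rw [mem_coe, mem_filter] at hx hy
      exact Prod.ext (hx.2.trans hy.2.symm) hxy
    rw [h6] at h5
    rw [hf]
    simp only
    rw [hcA]
    exact_mod_cast h5
  have hcard : (L.card : ℝ) ≤ ∑ D ∈ L.image Prod.fst, f D := by
    rw [card_eq_sum_card_image Prod.fst L]
    push_cast
    exact sum_le_sum hone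
  refine hcard.trans ?_
  -- every `D` lies in one of the three sets
  have hmem : ∀ D ∈ L.image Prod.fst, ∃ i ∈ range 3, D ∈ DN (N / P ^ 2 / 2 ^ i) := by
    intro D hD
    obtain ⟨x₀, hx₀, hx₀D⟩ := mem_image.1 hD
    obtain ⟨h1, h2, h3⟩ := hfact x₀ hx₀
    rw [hx₀D] at h1 h2 h3
    have hD0 : D < 0 := by
      have h4 : (D : ℝ) < 0 := by linarith
      exact_mod_cast h4
    by_cases c1 : N / P ^ 2 / 2 < -(D : ℝ)
    · refine ⟨0, by simp, SML_mem h1 ?_ ?_ hD0⟩
      · rw [pow_zero, div_one]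
        exact c1
      · rw [pow_zero, div_one]
        exact h3
    · push Not at c1
      by_cases c2 : N / P ^ 2 / 4 < -(D : ℝ)
      · refine ⟨1, by simp, SML_mem h1 ?_ ?_ hD0⟩
        · rw [pow_one]
          linarith
        · rw [pow_one]
          exact c1
      · push Not at c2
        refine ⟨2, by simp, SML_mem h1 ?_ ?_ hD0⟩
        · have h5 : N / P ^ 2 / 2 ^ 2 / 2 = N / P ^ 2 / 8 := by ring
          rw [h5]
          exact h2
        · have h5 : N / P ^ 2 / 2 ^ 2 = N / P ^ 2 / 4 := by ring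
          rw [h5]
          exact c2
  calc ∑ D ∈ L.image Prod.fst, f D ≤
        ∑ D ∈ L.image Prod.fst, ∑ i ∈ range 3, (if D ∈ DN (N / P ^ 2 / 2 ^ i) then f D else 0) := by
        refine sum_le_sum fun D hD => ?_
        obtain ⟨i, hi, hDi⟩ := hmem D hD
        have h1 := single_le_sum (f := fun i => if D ∈ DN (N / P ^ 2 / 2 ^ i) then f D else 0)
          (fun j _ => by
            split_ifs
            · exact hf0 D
            · exact le_rfl) hi
        rw [if_pos hDi] at h1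
        exact h1
    _ = ∑ i ∈ range 3, ∑ D ∈ L.image Prod.fst, (if D ∈ DN (N / P ^ 2 / 2 ^ i) then f D else 0) :=
        sum_comm
    _ ≤ ∑ i ∈ range 3, ∑ D ∈ DN (N / P ^ 2 / 2 ^ i), f D := by
        refine sum_le_sum fun i _ => ?_
        rw [← sum_filter]
        refine sum_le_sum_of_subset_of_nonneg ?_ fun D _ _ => hf0 D
        intro D hD
        exact (mem_filter.1 hD).2

end Pool.Agent.T7
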